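import Mathlib
import Pool.Agent.Hhelper54.Rebels

namespace Pool.Agent.Results.MP_ead61c_co.ArrowClosure

open Pool.Agent.Hhelper54.Rebels

/-- A closure property of the class of rebels. If `Q` is a rebel such that every partition of `V(Q)`
into two parts has a copy of `S₁` in the first part or a copy of `S₂` in the second part, then for
every `k` the tournament `Δ(TT k, S₁, S₂)` (a cyclic triangle with a transitive tournament on `k`
vertices, `S₁` and `S₂` substituted for its vertices) is a rebel. In particular, if `S` is a rebel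
then so is `Δ(TT k, TT l, S)` for all `k` and `l`. -/
theorem result :
    (∀ (W U₁ U₂ : Type) [Fintype W] [Fintype U₁] [Fintype U₂] [Nonempty U₁] [Nonempty U₂]
      (Q : W → W → Prop) (S₁ : U₁ → U₁ → Prop) (S₂ : U₂ → U₂ → Prop),
      IsRebel Q → Arrows Q S₁ S₂ → ∀ k : ℕ, IsRebel (Tri (TT k) S₁ S₂)) ∧
    (∀ (U : Type) [Fintype U] (S : U → U → Prop),
      IsRebel S → ∀ k l : ℕ, IsRebel (Tri (TT k) (TT l) S)) :=
  ⟨fun _ _ _ _ _ _ _ _ _ _ _ hQ h k => rebel_of_forced (forced_of_arrows hQ h) k,
    fun _ _ _ hS k l => rebel_tri_TT_TT hS k l⟩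

end Pool.Agent.Results.MP_ead61c_co.ArrowClosure
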