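import Mathlib
import Pool.Agent.Hhelper54.Rebels

namespace Pool.Agent.Results.MP_ead61c_co.HeroSubstitution

open Pool.Agent.Hhelper54.Rebels

/-- If `H₁` and `H₂` are heroes (tournaments `H` such that the `H`-free tournaments have bounded
chromatic number) then for every `k` the tournament `Δ(TT k, H₁, H₂)`, obtained from a cyclic
triangle by substituting a transitive tournament on `k` vertices, `H₁` and `H₂` for its three
vertices, is a rebel. -/
theorem result :
    ∀ (U₁ U₂ : Type) [Fintype U₁] [Fintype U₂] (H₁ : U₁ → U₁ → Prop) (H₂ : U₂ → U₂ → Prop),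
      IsHero H₁ → IsHero H₂ → ∀ k : ℕ, IsRebel (Tri (TT k) H₁ H₂) :=
  fun _ _ _ _ _ _ h₁ h₂ k => rebel_tri_heroes h₁ h₂ k

end Pool.Agent.Results.MP_ead61c_co.HeroSubstitution
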